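import Mathlib
import Pool.Agent.Helper84.SQ.GoalsB

/-! Packet CDB of the project SQ. -/

namespace Pool.Agent.Helper32.SQ

open Pool.Agent.Helper81.CC Pool.Agent.Bin
open Pool.Agent.Helper84.SQ
open Pool.Agent.Helper92.FR (Qn Cst dot cut cini cen lv)
open Pool.Agent.Helper45.SQP (Inst TUInst Correct Code intCode)

theorem code2_length (I : Inst) : I.code.2.length = I.n := by
  simp [Inst.code]

theorem code2_getElem (I : Inst) (j : Fin I.n) (h : j.val < I.code.2.length) :
    I.code.2[j.val] =
      (intCode (I.h j), (decide (j ∈ I.C), decide (j ∈ I.V)), Nat.bits (I.q j)) := by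
  simp [Inst.code]

theorem gob_get (I : Inst) (j : Fin I.n) : (gobC I.code).getD j (Zn.zero, Zn.zero) =
    (if j ∈ I.C then (BN.ofBits (Nat.bits (I.q j)), ⟨0⟩)
      else if j ∈ I.V then (⟨0⟩, BN.ofBits (Nat.bits (I.q j))) else Zn.zero,
      zof (intCode (I.h j))) := by
  have h : j.val < I.code.2.length := by rw [code2_length]; exact j.2
  have h2 : j.val < (gobC I.code).length := by unfold gobC; rw [List.length_map]; exact h
  rw [List.getD_eq_getElem _ _ h2]
  unfold gobC
  rw [List.getElem_map, code2_getElem I j h]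
  simp only [decide_eq_true_eq]

theorem fob_get (I : Inst) (j : Fin I.n) : (fobC I.code).getD j (⟨0⟩, Zn.zero) =
    (if j ∈ I.C then BN.ofBits (Nat.bits (I.q j)) else ⟨0⟩, zof (intCode (I.h j))) := by
  have h : j.val < I.code.2.length := by rw [code2_length]; exact j.2
  have h2 : j.val < (fobC I.code).length := by unfold fobC; rw [List.length_map]; exact h
  rw [List.getD_eq_getElem _ _ h2]
  unfold fobC
  rw [List.getElem_map, code2_getElem I j h]
  simp only [decide_eq_true_eq]

theorem mem_vin (I : Inst) (j : Fin I.n) : j.val ∈ vinC I.code ↔ j ∈ I.V := by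
  have h : j.val < I.code.2.length := by rw [code2_length]; exact j.2
  unfold vinC
  rw [List.mem_filter, List.mem_range]
  have h2 : j.val < (I.code.2.map fun e => e.2.1.2).length := by rw [List.length_map]; exact h
  rw [List.getD_eq_getElem _ _ h2, List.getElem_map, code2_getElem I j h]
  simp only [decide_eq_true_eq]
  exact ⟨fun h => h.2, fun h' => ⟨h, h'⟩⟩

theorem vin_lt (I : Inst) (i : ℕ) (hi : i ∈ vinC I.code) : i < I.n := by
  unfold vinC at hi
  rw [List.mem_filter, List.mem_range, code2_length] at hi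
  exact hi.1

theorem val_zof (z : ℤ) : Zn.val (zof (intCode z)) = z := by
  unfold zof intCode
  simp only [decide_eq_true_eq]
  split_ifs with h
  · rw [Zn.val_bn', BN.val_ofBits, bval_bits]
    omega
  · rw [Zn.val_bn, BN.val_ofBits, bval_bits]
    omega

theorem kG_eq (I : Inst) (j : Fin I.n) : kG I.n (gobC I.code) j =
    (if j ∈ I.C then (I.q j : ℝ) else if j ∈ I.V then -(I.q j : ℝ) else 0) := by
  unfold kG
  rw [gob_get]
  split_ifs
  · rw [Zn.val_bn, BN.val_ofBits, bval_bits]; push_cast; rfl
  · rw [Zn.val_bn', BN.val_ofBits, bval_bits]; push_cast; rfl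
  · rw [Zn.val_zero]; simp

theorem hG_eq (I : Inst) (j : Fin I.n) : hG I.n (gobC I.code) j = (I.h j : ℝ) := by
  unfold hG
  rw [gob_get]
  simp only [val_zof]

theorem hF_eq (I : Inst) (j : Fin I.n) : hF I.n (fobC I.code) j = I.h j := by
  unfold hF
  rw [fob_get]
  simp only [val_zof]

theorem qF_eq (I : Inst) (j : Fin I.n) : qF I.n (fobC I.code) j =
    (if j ∈ I.C then (I.q j : ℤ) else 0) := by
  unfold qF
  rw [fob_get]
  split_ifs
  · rw [BN.val_ofBits, bval_bits]
  · rfl

theorem cdb : CdbStmt := by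
  intro I
  refine ⟨?_, vin_lt I, ?_, mem_vin I, ?_, ?_⟩
  · unfold gobC; rw [List.length_map, code2_length]
  · have hnd : (vinC I.code).Nodup := by
      unfold vinC
      exact List.Nodup.filter _ List.nodup_range
    rw [← List.toFinset_card_of_nodup hnd]
    have : (vinC I.code).toFinset = I.V.map Fin.valEmbedding := by
      ext i
      rw [List.mem_toFinset, Finset.mem_map]
      constructor
      · intro hi
        have hlt := vin_lt I i hi
        exact ⟨⟨i, hlt⟩, (mem_vin I ⟨i, hlt⟩).1 hi, rfl⟩
      · rintro ⟨j, hj, rfl⟩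
        exact (mem_vin I j).2 hj
    rw [this, Finset.card_map]
  · intro j
    refine ⟨?_, ?_, ?_⟩
    · rw [hG_eq, hF_eq]
    · intro hj
      rw [mem_vin] at hj
      rw [qF_eq, if_neg]
      intro hC
      exact (Finset.disjoint_left.1 I.disj) hC hj
    · intro hj
      rw [mem_vin] at hj
      rw [kG_eq, qF_eq]
      split_ifs <;> simp
  · intro x
    unfold gq Inst.f
    push_cast
    have h1 : ∀ j, kG I.n (gobC I.code) j * (x j : ℝ) ^ 2 + hG I.n (gobC I.code) j * x j =
        (if j ∈ I.C then (I.q j : ℝ) * (x j : ℝ) ^ 2 else 0) -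
          (if j ∈ I.V then (I.q j : ℝ) * (x j : ℝ) ^ 2 else 0) + (I.h j : ℝ) * x j := by
      intro j
      rw [kG_eq, hG_eq]
      by_cases hC : j ∈ I.C
      · have hV : j ∉ I.V := Finset.disjoint_left.1 I.disj hC
        rw [if_pos hC, if_pos hC, if_neg hV]; ring
      · by_cases hV : j ∈ I.V
        · rw [if_neg hC, if_pos hV, if_neg hC, if_pos hV]; ring
        · rw [if_neg hC, if_neg hV, if_neg hC, if_neg hV]; ring
    rw [Finset.sum_congr rfl (fun j _ => h1 j), Finset.sum_add_distrib, Finset.sum_sub_distrib,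
      Finset.sum_ite_mem, Finset.sum_ite_mem, Finset.univ_inter, Finset.univ_inter]

end Pool.Agent.Helper32.SQ
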