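import Pool.Agent.Helper39.SQ.Goals

/-!
# MP_9b2a83_an: packet SQ-EXPB (model: `Pool/Agent/Helper71/SN/EXPB.lean`)
-/

set_option autoImplicit false

namespace Pool.Agent.Helper32.SQ.EXPB

open Pool.Agent.Helper39.SQ
open Pool.Agent.Helper71.SN (agr)

theorem real_part (N S : ℝ) (m : ℕ) (hN : N = m + 1) (hm : 1 ≤ m) (hS : 0 < S) :
    S ^ (m + 1) * N ≤ 6 * (m : ℝ) * S ^ 2 * (S * (1 - 1 / N)) ^ (m - 1) := by
  have hm' : (1 : ℝ) ≤ m := by exact_mod_cast hm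
  have hNp : 0 < N := by rw [hN]; positivity
  have hmp : (0 : ℝ) < m := by linarith
  have h5 : (1 : ℝ) / 3 ≤ (1 - 1 / N) ^ m := by
    have e1 : (1 : ℝ) - 1 / N = (1 + 1 / (m : ℝ))⁻¹ := by
      rw [hN]
      field_simp
      ring
    rw [e1, inv_pow]
    have e2 : (1 + 1 / (m : ℝ)) ^ m ≤ 3 := by
      have h6 : (1 + 1 / (m : ℝ)) ≤ Real.exp (1 / (m : ℝ)) := by
        have := Real.add_one_le_exp (1 / (m : ℝ))
        linarith
      have h7 : (1 + 1 / (m : ℝ)) ^ m ≤ Real.exp (1 / (m : ℝ)) ^ m :=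
        pow_le_pow_left₀ (by positivity) h6 m
      rw [← Real.exp_nat_mul] at h7
      have h8 : (m : ℝ) * (1 / (m : ℝ)) = 1 := by field_simp
      rw [h8] at h7
      have := Real.exp_one_lt_d9
      linarith
    rw [one_div]
    exact inv_anti₀ (by positivity) e2
  have h9 : (m : ℝ) = N * (1 - 1 / N) := by
    rw [hN]
    field_simp
    ring
  have h10 : (m : ℝ) * (S * (1 - 1 / N)) ^ (m - 1) = N * S ^ (m - 1) * (1 - 1 / N) ^ m := by
    obtain ⟨k, rfl⟩ : ∃ k, m = k + 1 := ⟨m - 1, by omega⟩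
    rw [Nat.add_sub_cancel, mul_pow]
    rw [h9]
    ring
  have h11 : S ^ (m + 1) = S ^ 2 * S ^ (m - 1) := by
    rw [← pow_add]
    congr 1
    omega
  calc S ^ (m + 1) * N = 3 * S ^ 2 * (N * S ^ (m - 1) * (1 / 3)) := by rw [h11]; ring
    _ ≤ 6 * S ^ 2 * (N * S ^ (m - 1) * (1 - 1 / N) ^ m) := by
      gcongr
      norm_num
    _ = 6 * (m : ℝ) * S ^ 2 * (S * (1 - 1 / N)) ^ (m - 1) := by
      rw [← h10]
      ring

open Classical in
theorem comb (hA : G_EXPA) (d D N : ℕ) (hD : 1 ≤ D) :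
    2 ^ N * (2 ^ N - 1) * (nshp d D N * (2 ^ (2 * D * d) *
      (2 ^ (D * d) - 2 ^ (D * d - N)) ^ (2 ^ N - 2))) ≤
    4 ^ d * 2 ^ N * ∑ F : Mp d D N,
      (Finset.univ.filter fun q : Fin (2 ^ N) × Fin (2 ^ N) => Gd F q.1 q.2).card := by
  let T : Finset (Fin d → Fin D) :=
    Finset.univ.filter fun σ : Fin d → Fin D => ∑ c, (σ c : ℕ) = N
  have hT : T.card = nshp d D N := by
    unfold nshp
    congr
  let A : Fin (2 ^ N) × Fin (2 ^ N) → (Fin d → Fin D) → Finset (Mp d D N) := fun q τ =>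
    Finset.univ.filter fun F : Mp d D N =>
      (∀ c, (F q.1 c).val < (F q.2 c).val ∧ agr 2 D (F q.1 c) (F q.2 c) = (τ c : ℕ)) ∧
        ∀ k, k ≠ q.1 → k ≠ q.2 → ¬ ∀ c, (τ c : ℕ) ≤ agr 2 D (F q.1 c) (F k c)
  have hX2 : (∑ F : Mp d D N,
      (Finset.univ.filter fun q : Fin (2 ^ N) × Fin (2 ^ N) => Gd F q.1 q.2).card) =
      ∑ q : Fin (2 ^ N) × Fin (2 ^ N),
      (Finset.univ.filter fun F : Mp d D N => Gd F q.1 q.2).card := by
    simp only [Finset.card_filter]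
    exact Finset.sum_comm
  have hgood : ∀ q : Fin (2 ^ N) × Fin (2 ^ N), ∑ τ ∈ T, (A q τ).card ≤
      (Finset.univ.filter fun F : Mp d D N => Gd F q.1 q.2).card := by
    intro q
    rw [← Finset.card_biUnion]
    · refine Finset.card_le_card ?_
      intro F hF
      rw [Finset.mem_biUnion] at hF
      obtain ⟨τ, hτ, hF⟩ := hF
      simp only [A, Finset.mem_filter, Finset.mem_univ, true_and] at hF
      simp only [T, Finset.mem_filter, Finset.mem_univ, true_and] at hτ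
      rw [Finset.mem_filter]
      refine ⟨Finset.mem_univ _, fun c => (hF.1 c).1, ?_, ?_⟩
      · rw [Finset.sum_congr rfl fun c _ => (hF.1 c).2]
        exact hτ
      · intro k hk
        by_contra hne
        push Not at hne
        refine hF.2 k hne.1 hne.2 fun c => ?_
        rw [← (hF.1 c).2]
        exact hk c
    · intro τ _ τ' _ hne
      simp only [Function.onFun]
      rw [Finset.disjoint_left]
      intro F hF hF'
      simp only [A, Finset.mem_filter, Finset.mem_univ, true_and] at hF hF'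
      apply hne
      funext c
      apply Fin.ext
      rw [← (hF.1 c).2, ← (hF'.1 c).2]
  have h5 : ∀ q ∈ (Finset.univ : Finset (Fin (2 ^ N))).offDiag,
      ∑ τ ∈ T, 4 ^ d * 2 ^ N * (A q τ).card =
      nshp d D N * (2 ^ (2 * D * d) *
      (2 ^ (D * d) - 2 ^ (D * d - N)) ^ (2 ^ N - 2)) := by
    intro q hq
    have hq' : q.1 ≠ q.2 := (Finset.mem_offDiag.1 hq).2.2
    have h6 : ∀ τ ∈ T,
        4 ^ d * 2 ^ N * (A q τ).card = (2 ^ (2 * D * d) *
      (2 ^ (D * d) - 2 ^ (D * d - N)) ^ (2 ^ N - 2)) := by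
      intro τ hτ
      simp only [T, Finset.mem_filter, Finset.mem_univ, true_and] at hτ
      exact hA d D N hD (fun c => (τ c : ℕ)) (fun c => (τ c).isLt) hτ q.1 q.2 hq'
    rw [Finset.sum_congr rfl h6, Finset.sum_const, smul_eq_mul, hT]
  have h7 : 2 ^ N * (2 ^ N - 1) * (nshp d D N * (2 ^ (2 * D * d) *
      (2 ^ (D * d) - 2 ^ (D * d - N)) ^ (2 ^ N - 2))) =
      ∑ q ∈ (Finset.univ : Finset (Fin (2 ^ N))).offDiag,
        ∑ τ ∈ T, 4 ^ d * 2 ^ N * (A q τ).card := by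
    rw [Finset.sum_congr rfl h5, Finset.sum_const, smul_eq_mul, Finset.offDiag_card,
      Finset.card_univ, Fintype.card_fin, Nat.mul_sub, Nat.mul_one]
  rw [h7, hX2, Finset.mul_sum]
  refine (Finset.sum_le_sum_of_subset (Finset.subset_univ _)).trans ?_
  refine Finset.sum_le_sum fun q _ => ?_
  rw [← Finset.mul_sum]
  exact Nat.mul_le_mul_left _ (hgood q)

theorem est (Dd N n S : ℕ) (hN1 : 1 ≤ N) (hN : N ≤ Dd) (hn : n = 2 ^ N) (hS : S = 2 ^ Dd) :
    S ^ n * n ≤ 6 * (n - 1) * (S ^ 2 * (S - 2 ^ (Dd - N)) ^ (n - 2)) := by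
  have hSN : S = n * 2 ^ (Dd - N) := by
    rw [hS, hn, ← pow_add]
    congr 1
    omega
  have hn2 : 2 ≤ n := by
    rw [hn]
    calc 2 = 2 ^ 1 := (pow_one 2).symm
      _ ≤ 2 ^ N := Nat.pow_le_pow_right (by norm_num) hN1
  have hSp : (0 : ℝ) < S := by
    rw [hS]; push_cast; positivity
  have key := real_part (n : ℝ) (S : ℝ) (n - 1) (by
    rw [Nat.cast_sub (by omega)]; simp) (by omega) hSp
  have c1 : n - 1 + 1 = n := by omega
  have c2 : n - 1 - 1 = n - 2 := by omega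
  rw [c1, c2] at key
  have r2 : ((S - 2 ^ (Dd - N) : ℕ) : ℝ) = (S : ℝ) * (1 - 1 / (n : ℝ)) := by
    have hNp : (0 : ℝ) < n := by
      have : 0 < n := by omega
      exact_mod_cast this
    rw [Nat.cast_sub (by
      rw [hSN]
      exact Nat.le_mul_of_pos_left _ (by omega))]
    have : ((2 ^ (Dd - N) : ℕ) : ℝ) = (S : ℝ) / n := by
      rw [hSN]
      push_cast
      field_simp
    rw [this]
    ring
  have : ((S ^ n * n : ℕ) : ℝ) ≤ ((6 * (n - 1) * (S ^ 2 * (S - 2 ^ (Dd - N)) ^ (n - 2)) : ℕ) : ℝ) := by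
    have e1 : ((6 * (n - 1) * (S ^ 2 * (S - 2 ^ (Dd - N)) ^ (n - 2)) : ℕ) : ℝ) =
        6 * ((n - 1 : ℕ) : ℝ) * ((S : ℝ) ^ 2 * (((S - 2 ^ (Dd - N) : ℕ) : ℝ)) ^ (n - 2)) := by
      rw [Nat.cast_mul, Nat.cast_mul, Nat.cast_mul, Nat.cast_pow, Nat.cast_pow (S - 2 ^ (Dd - N))]
      norm_num
    rw [e1, r2]
    have e2 : ((S ^ n * n : ℕ) : ℝ) = (S : ℝ) ^ n * n := by push_cast; ring
    rw [e2]
    refine key.trans (le_of_eq ?_)
    ring
  exact_mod_cast this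

theorem thm : G_EXPA → G_EXPB := by
  classical
  intro hA d D N hD hN
  have hsum := comb hA d D N hD
  by_cases h0 : nshp d D N = 0
  · rw [h0]
    simp
  have hle : N ≤ D * d := by
    have hpos : 0 < nshp d D N := Nat.pos_of_ne_zero h0
    unfold nshp at hpos
    rw [Finset.card_pos] at hpos
    obtain ⟨σ, hσ⟩ := hpos
    rw [Finset.mem_filter] at hσ
    rw [← hσ.2]
    calc ∑ c, (σ c : ℕ) ≤ ∑ _c : Fin d, D := Finset.sum_le_sum fun c _ => (σ c).isLt.le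
      _ = D * d := by simp [mul_comm]
  have hest := est (D * d) N (2 ^ N) (2 ^ (D * d)) hN hle rfl rfl
  have hSS : 2 ^ (D * d * 2 ^ N) = (2 ^ (D * d)) ^ (2 ^ N) := by
    rw [← pow_mul]
  have hS2 : 2 ^ (2 * D * d) = (2 ^ (D * d)) ^ 2 := by
    rw [← pow_mul]; congr 1; ring
  rw [hSS]
  rw [hS2] at hsum
  have hNpos : 0 < 2 ^ N := by positivity
  have hsum' : 2 ^ N * (2 ^ N - 1) * (nshp d D N * ((2 ^ (D * d)) ^ 2 *
      (2 ^ (D * d) - 2 ^ (D * d - N)) ^ (2 ^ N - 2))) ≤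
    4 ^ d * 2 ^ N * ∑ F : Mp d D N,
      (Finset.univ.filter fun q : Fin (2 ^ N) × Fin (2 ^ N) => Gd F q.1 q.2).card := by
    convert hsum using 6
  clear hsum hSS hS2
  generalize (∑ F : Mp d D N,
      (Finset.univ.filter fun q : Fin (2 ^ N) × Fin (2 ^ N) => Gd F q.1 q.2).card) = X at hsum' ⊢
  generalize ((2 ^ (D * d)) ^ 2 *
      (2 ^ (D * d) - 2 ^ (D * d - N)) ^ (2 ^ N - 2)) = R at hsum' hest
  generalize 2 ^ (D * d) = S at hest ⊢
  generalize 2 ^ N = n at *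
  generalize nshp d D N = s at *
  refine Nat.le_of_mul_le_mul_left ?_ hNpos
  calc n * (S ^ n * (n * s)) = n * (S ^ n * n * s) := by ring
    _ ≤ n * (6 * (n - 1) * R * s) := by
        gcongr
    _ = 6 * (n * (n - 1) * (s * R)) := by ring
    _ ≤ 6 * (4 ^ d * n * X) := by gcongr
    _ = n * (6 * 4 ^ d * X) := by ring

end Pool.Agent.Helper32.SQ.EXPB
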