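import Pool.Agent.Helper39.SQ.Goals

/-!
# MP_9b2a83_an: packet SQ-LOW (model: `Pool/Agent/Helper82/SN/LOW.lean`)
-/

set_option autoImplicit false

namespace Pool.Agent.Helper32.SQ.LOW

open Pool.Agent.Helper39.SQ
open Pool.Agent.Helper71.SN (agr Pt qOne qInf)
open Pool.Agent.Helper39.Net (dOne dInf EN EN_mem Enough Embeds enough_one enough_inf dOne_self
  dOne_pos)

theorem small (k : ℕ) : 288 * (k + 2) ≤ 34 ^ (k + 2) := by
  induction k with
  | zero => norm_num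
  | succ k ih =>
    have : 34 ^ (k + 1 + 2) = 34 * 34 ^ (k + 2) := by ring
    rw [this]
    omega

theorem arith (k D l n s P K e : ℕ) (hD : 1 ≤ D) (hl : 1 ≤ l)
    (h1 : n * s ≤ 12 * 4 ^ (k + 2) * P) (h2 : D ^ (k + 2) ≤ (k + 2) * D * s)
    (h3 : (K + 1) * l ≤ 6 * D)
    (h4 : P ≤ 2 * (K + 1) * (2 * 168 ^ (k + 2) * l ^ (k + 1)) * e) :
    (n : ℝ) * (D : ℝ) ^ k ≤ (10 ^ 5 : ℝ) ^ (k + 2) * (l : ℝ) ^ k * e := by
  have h2' : D ^ (k + 1) ≤ (k + 2) * s := by
    have : D * D ^ (k + 1) ≤ D * ((k + 2) * s) := by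
      calc D * D ^ (k + 1) = D ^ (k + 2) := by ring
        _ ≤ (k + 2) * D * s := h2
        _ = D * ((k + 2) * s) := by ring
    exact Nat.le_of_mul_le_mul_left this (by omega)
  have h5 : D * l * (n * D ^ k) ≤ D * l * (288 * (k + 2) * (672 ^ (k + 2)) * l ^ k * e) := by
    calc D * l * (n * D ^ k) = n * D ^ (k + 1) * l := by ring
      _ ≤ n * ((k + 2) * s) * l := by gcongr
      _ = (k + 2) * (n * s) * l := by ring
      _ ≤ (k + 2) * (12 * 4 ^ (k + 2) * P) * l := by gcongr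
      _ ≤ (k + 2) * (12 * 4 ^ (k + 2) *
          (2 * (K + 1) * (2 * 168 ^ (k + 2) * l ^ (k + 1)) * e)) * l := by gcongr
      _ = (k + 2) * 12 * 4 ^ (k + 2) * 2 * ((K + 1) * l) *
          (2 * 168 ^ (k + 2) * l ^ (k + 1) * e) := by ring
      _ ≤ (k + 2) * 12 * 4 ^ (k + 2) * 2 * (6 * D) *
          (2 * 168 ^ (k + 2) * l ^ (k + 1) * e) := by gcongr
      _ = D * l * (288 * (k + 2) * ((4 * 168) ^ (k + 2)) * l ^ k * e) := by
          rw [mul_pow 4 168]; ring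
      _ = D * l * (288 * (k + 2) * (672 ^ (k + 2)) * l ^ k * e) := by norm_num
  have h6 : n * D ^ k ≤ 288 * (k + 2) * (672 ^ (k + 2)) * l ^ k * e :=
    Nat.le_of_mul_le_mul_left h5 (Nat.mul_pos hD hl)
  have h7 : n * D ^ k ≤ (10 ^ 5) ^ (k + 2) * l ^ k * e := by
    calc n * D ^ k ≤ 288 * (k + 2) * (672 ^ (k + 2)) * l ^ k * e := h6
      _ ≤ 34 ^ (k + 2) * (672 ^ (k + 2)) * l ^ k * e := by
          gcongr
          exact small k
      _ = (34 * 672) ^ (k + 2) * l ^ k * e := by rw [mul_pow]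
      _ ≤ (10 ^ 5) ^ (k + 2) * l ^ k * e := by
          gcongr
          norm_num
  exact_mod_cast h7

theorem qOne_inj {d : ℕ} {x y : Pt d} (h : x ≠ y) : qOne x ≠ qOne y := by
  intro h'
  apply h
  funext c
  have := congrFun h' c
  simp only [qOne] at this
  exact_mod_cast this

theorem thm : G_METRIC → G_QONE → Pool.Agent.Helper71.SN.G_QINF → G_CONFIG → G_PIG → G_THE →
    G_LOW := by
  classical
  intro hmet hone hinf hconf hpig hthe k D hD
  obtain ⟨N, hN1, hN2, hNs⟩ := hpig (k + 2) D (by omega) hD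
  obtain ⟨l, hl⟩ : ∃ l, l = Nat.log 2 (D + 1) := ⟨_, rfl⟩
  have hl1 : 1 ≤ l := by
    rw [hl]
    exact Nat.log_pos (by norm_num) (by omega)
  obtain ⟨h, hh⟩ : ∃ h, h = 4 * (k + 2) * l := ⟨_, rfl⟩
  obtain ⟨K, hK⟩ : ∃ K, K = (2 * D + 3) / l + 1 := ⟨_, rfl⟩
  have hbase := hthe (k + 2) D N l h K 0 (by omega) hD hl hh hK (by omega)
  obtain ⟨hbad, hKl, hcnt0⟩ := hbase
  have hs1 : 1 ≤ nshp (k + 2) D N := by
    by_contra h0
    have h0' : nshp (k + 2) D N = 0 := by omega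
    rw [h0', Nat.mul_zero] at hNs
    have : 0 < D ^ (k + 2) := by positivity
    omega
  obtain ⟨M, P, hM, hcfg, hP⟩ := hconf (k + 2) D N h K (by omega) (by omega) hN1 hN2 hs1 hbad
  have h2n : 2 ≤ 2 ^ N := by
    calc 2 = 2 ^ 1 := (pow_one 2).symm
      _ ≤ 2 ^ N := Nat.pow_le_pow_right (by norm_num) hN1
  refine ⟨2 ^ N, h2n, ?_⟩
  intro c hc hcb
  have hn1 : 1 ≤ 2 ^ N := by omega
  have hh1 : 1 ≤ h := by
    rw [hh]
    have : 0 < 4 * (k + 2) * l := by positivity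
    omega
  have hθ1 : 1 ≤ 2 * 168 ^ (k + 2) * l ^ (k + 2 - 1) := by
    have : 0 < 2 * 168 ^ (k + 2) * l ^ (k + 2 - 1) := by positivity
    omega
  obtain ⟨B, hB⟩ : ∃ B : ℕ, B = 2 ^ D := ⟨_, rfl⟩
  have hB1 : 1 ≤ B := by
    rw [hB]
    exact Nat.one_le_two_pow
  have hBr : (1 : ℝ) ≤ (B : ℝ) := by exact_mod_cast hB1
  have hBD : ((2 : ℝ) ^ D) = (B : ℝ) := by
    rw [hB]; push_cast; rfl
  rw [hBD] at hcb
  have hc0 : 0 ≤ c - 1 := by linarith
  have hgrid : ∀ x ∈ M, ∀ i, x i < B := by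
    intro x hx i
    rw [hB]
    exact hcfg.grid x hx i
  rw [← hl]
  constructor
  · have hemb : ∀ T : Finset (Fin (k + 2) → ℝ), T.card = 2 ^ N →
        Embeds (dOne (d := k + 2)) T c (EN (dOne (d := k + 2)) (2 ^ N) c) := by
      have hne : (Enough (dOne (d := k + 2)) (2 ^ N) c).Nonempty :=
        ⟨_, enough_one (k + 1) (2 ^ N) hn1 c hc⟩
      exact EN_mem hne
    obtain ⟨T, hT, hTc⟩ := Infinite.exists_superset_card_eq (M.image (qOne (d := k + 2))) (2 ^ N)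
      (Finset.card_image_le.trans hM)
    obtain ⟨g, hg⟩ : ∃ g : ℕ, g = ⌊2 * (c - 1) * ((k + 2 : ℕ) : ℝ) * (B : ℝ)⌋₊ := ⟨_, rfl⟩
    have hg0 : 0 ≤ 2 * (c - 1) * ((k + 2 : ℕ) : ℝ) * (B : ℝ) := by positivity
    have hg1 : 2 * (c - 1) * ((k + 2 : ℕ) : ℝ) * (B : ℝ) < (g : ℝ) + 1 := by
      rw [hg]
      exact Nat.lt_floor_add_one _
    have hg2 : (g : ℝ) ≤ 2 * (c - 1) * ((k + 2 : ℕ) : ℝ) * (B : ℝ) := by
      rw [hg]
      exact Nat.floor_le hg0
    have hg3 : g * 2 ^ (D + 1) ≤ k + 2 := by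
      have : (g : ℝ) * (2 ^ (D + 1) : ℝ) ≤ ((k + 2 : ℕ) : ℝ) := by
        have e1 : (2 : ℝ) ^ (D + 1) = 2 * B := by
          rw [pow_succ, hBD]; ring
        rw [e1]
        calc (g : ℝ) * (2 * B) ≤ (2 * (c - 1) * ((k + 2 : ℕ) : ℝ) * (B : ℝ)) * (2 * B) := by
              gcongr
          _ = ((k + 2 : ℕ) : ℝ) * ((c - 1) * (4 * (B : ℝ) ^ 2)) := by ring
          _ ≤ ((k + 2 : ℕ) : ℝ) * 1 := by gcongr
          _ = ((k + 2 : ℕ) : ℝ) := mul_one _
      exact_mod_cast this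
    have hcnt := (hthe (k + 2) D N l h K g (by omega) hD hl hh hK hg3).2.2
    have key := hmet (k + 2) D N h K g (2 * 168 ^ (k + 2) * l ^ (k + 2 - 1)) (by omega) hh1 hθ1
      hcnt M P hcfg (Fin (k + 2) → ℝ)
      (dOne (d := k + 2)) qOne ((g : ℝ) + 1) (((k + 2 : ℕ) : ℝ) * (B : ℝ)) c (by positivity) hc
      (by
        rw [lt_div_iff₀ (by norm_num)]
        calc (c - 1) * (((k + 2 : ℕ) : ℝ) * (B : ℝ)) * 2 =
            2 * (c - 1) * ((k + 2 : ℕ) : ℝ) * (B : ℝ) := by ring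
          _ < (g : ℝ) + 1 := hg1)
      (fun x _ => dOne_self _)
      (fun x _ y _ hxy => dOne_pos _ _ (qOne_inj hxy))
      (fun p hp => ((hone (k + 2) B p.1 p.2 p.1 p.2 (hgrid _ (hcfg.mem1 p hp))
        (hgrid _ (hcfg.mem2 p hp))).1 (Or.inr (hcfg.lt p hp))))
      (fun x hx y hy x' _ y' _ h1 h2 h3 => by
        have h4 := (hone (k + 2) B x y x' y' (hgrid _ hx) (hgrid _ hy)).2 h1 h2
        have h5 : (g : ℝ) + 1 ≤ (exc x y' : ℝ) := by exact_mod_cast h3
        linarith)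
      T (fun x hx => hT (Finset.mem_image_of_mem _ hx)) _ (hemb T hTc)
    exact arith k D l (2 ^ N) _ P.card K _ (by omega) hl1 hP hNs hKl key
  · have hemb : ∀ T : Finset (Fin (k + 2) → ℝ), T.card = 2 ^ N →
        Embeds (dInf (d := k + 2)) T c (EN (dInf (d := k + 2)) (2 ^ N) c) := by
      have hne : (Enough (dInf (d := k + 2)) (2 ^ N) c).Nonempty :=
        ⟨_, enough_inf (k + 1) (2 ^ N) hn1 c hc⟩
      exact EN_mem hne
    obtain ⟨T, hT, hTc⟩ := Infinite.exists_superset_card_eq (M.image (qInf k B)) (2 ^ N)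
      (Finset.card_image_le.trans hM)
    have hBpos : (0 : ℝ) < B := by linarith
    have key := hmet (k + 2) D N h K 0 (2 * 168 ^ (k + 2) * l ^ (k + 2 - 1)) (by omega) hh1 hθ1
      hcnt0 M P hcfg (Fin (k + 2) → ℝ)
      (dInf (d := k + 2)) (qInf k B) (1 / (B : ℝ)) (B : ℝ) c (by positivity) hc
      (by
        rw [div_div, lt_div_iff₀ (by positivity)]
        have h2 : (c - 1) * (B : ℝ) * (B * 2) = (c - 1) * (4 * (B : ℝ) ^ 2) / 2 := by ring
        rw [h2]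
        linarith)
      (fun x _ => by simp [dInf])
      (fun x hx y hy hxy => by
        have h1 := (hinf k B x x y y (hgrid _ hx) (hgrid _ hx) (hgrid _ hy) (hgrid _ hy)).2
          (Or.inl rfl) (Or.inl rfl) (by
            rintro ⟨ha, hb⟩
            exact hxy (funext fun i => le_antisymm (ha i) (hb i)))
        have h2 : dInf (qInf k B y) (qInf k B x) = dInf (qInf k B x) (qInf k B y) := by
          simp only [dInf]
          exact norm_sub_rev _ _
        have h3 : dInf (qInf k B x) (qInf k B x) = 0 := by simp [dInf]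
        have h4 : dInf (qInf k B y) (qInf k B y) = 0 := by simp [dInf]
        rw [h2, h3, h4] at h1
        have h5 : 0 < 1 / (B : ℝ) := by positivity
        linarith)
      (fun p hp => ((hinf k B p.1 p.2 p.1 p.2 (hgrid _ (hcfg.mem1 p hp))
        (hgrid _ (hcfg.mem2 p hp)) (hgrid _ (hcfg.mem1 p hp))
        (hgrid _ (hcfg.mem2 p hp))).1 (Or.inr (hcfg.lt p hp))))
      (fun x hx y hy x' hx' y' hy' h1 h2 h3 =>
        (hinf k B x y x' y' (hgrid _ hx) (hgrid _ hy) (hgrid _ hx')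
          (hgrid _ hy')).2 h1 h2 (by
            rintro ⟨ha, -⟩
            have h4 : exc x y' = 0 := by
              unfold exc
              rw [Finset.card_eq_zero, Finset.filter_eq_empty_iff]
              intro i _
              exact not_lt.2 (ha i)
            omega))
      T (fun x hx => hT (Finset.mem_image_of_mem _ hx)) _ (hemb T hTc)
    exact arith k D l (2 ^ N) _ P.card K _ (by omega) hl1 hP hNs hKl key

end Pool.Agent.Helper32.SQ.LOW
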