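import Pool.Agent.Helper4.SQ.GoalsL

/-!
Project SQ (MP_bb32d1_al), part L, packet MUA: matrix units from Chevalley generators.
-/

set_option autoImplicit false

namespace Pool.Agent.Helper32.SQ

noncomputable section

open Pool.Agent.Helper19.SQ Pool.Agent.Helper4.SQ

variable {B : Type} [Ring B] [Algebra ℂ B]

/-- the commutator -/
def br (x y : B) : B := x * y - y * x

theorem br_skew (x y : B) : br y x = -br x y := by unfold br; rw [neg_sub]

theorem br_self (x : B) : br x x = 0 := by unfold br; rw [sub_self]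

theorem br_zero_left (x : B) : br 0 x = 0 := by unfold br; simp

theorem br_zero_right (x : B) : br x 0 = 0 := by unfold br; simp

theorem br_sub_left (x y z : B) : br (x - y) z = br x z - br y z := by unfold br; noncomm_ring

theorem br_sub_right (x y z : B) : br x (y - z) = br x y - br x z := by unfold br; noncomm_ring

theorem br_neg_left (x y : B) : br (-x) y = -br x y := by unfold br; noncomm_ring

theorem br_neg_right (x y : B) : br x (-y) = -br x y := by unfold br; noncomm_ring

theorem br_smul_left (c : ℂ) (x y : B) : br (c • x) y = c • br x y := by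
  unfold br
  rw [smul_mul_assoc, mul_smul_comm, smul_sub]

theorem br_smul_right (c : ℂ) (x y : B) : br x (c • y) = c • br x y := by
  unfold br
  rw [smul_mul_assoc, mul_smul_comm, smul_sub]

theorem br_jac (x y z : B) : br x (br y z) = br (br x y) z + br y (br x z) := by
  unfold br; noncomm_ring

theorem br_jac' (x y z : B) : br (br x y) z = br x (br y z) - br y (br x z) := by
  unfold br; noncomm_ring

theorem br_of_comm {x y : B} (h : x * y = y * x) : br x y = 0 := by
  unfold br; rw [h, sub_self]

/-- Chevalley generators -/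
structure Chev (N : ℕ) (E F h : ℕ → B) : Prop where
  sE : SerreRel (1 : ℂ) E
  sF : SerreRel (1 : ℂ) F
  EF : ∀ i j, i < N → j < N → br (E i) (F j) = if i = j then h i - h (i + 1) else 0
  hE : ∀ x i, i < N →
    br (h x) (E i) = ((if x = i then (1 : ℂ) else 0) - (if x = i + 1 then 1 else 0)) • E i
  hF : ∀ x i, i < N →
    br (h x) (F i) = ((if x = i + 1 then (1 : ℂ) else 0) - (if x = i then 1 else 0)) • F i
  hh : ∀ x y, br (h x) (h y) = 0

theorem serre_neg {E : ℕ → B} (h : SerreRel (1 : ℂ) E) : SerreRel (1 : ℂ) (fun i => -E i) := by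
  have h1 := h.scale (fun _ => -1)
  have h2 : (fun k => (-1 : ℂ) • E k) = fun i => -E i := by
    funext i
    rw [neg_one_smul]
  rw [← h2]
  exact h1

theorem Chev.inv {N : ℕ} {E F h : ℕ → B} (C : Chev N E F h) :
    Chev N (fun i => -F i) (fun i => -E i) (fun i => -h i) := by
  refine ⟨serre_neg C.sF, serre_neg C.sE, ?_, ?_, ?_, ?_⟩
  · intro i j hi hj
    rw [br_neg_left, br_neg_right, neg_neg, br_skew, C.EF j i hj hi]
    by_cases hij : i = j
    · subst hij
      rw [if_pos rfl, if_pos rfl]
      abel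
    · rw [if_neg hij, if_neg (fun h => hij h.symm), neg_zero]
  · intro x i hi
    rw [br_neg_left, br_neg_right, neg_neg, C.hF x i hi, smul_neg, ← neg_smul, neg_sub]
  · intro x i hi
    rw [br_neg_left, br_neg_right, neg_neg, C.hE x i hi, smul_neg, ← neg_smul, neg_sub]
  · intro x y
    rw [br_neg_left, br_neg_right, neg_neg, C.hh]

/-- the matrix units -/
def ee (E F h : ℕ → B) (a b : ℕ) : B :=
  if a < b then rv 1 E a b else if b < a then -rv 1 (fun i => -F i) b a else h a

theorem ee_lt {E F h : ℕ → B} {a b : ℕ} (hab : a < b) : ee E F h a b = rv 1 E a b := if_pos hab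

theorem ee_gt {E F h : ℕ → B} {a b : ℕ} (hab : b < a) :
    ee E F h a b = -rv 1 (fun i => -F i) b a := by
  rw [ee, if_neg (by omega), if_pos hab]

theorem ee_eq {E F h : ℕ → B} (a : ℕ) : ee E F h a a = h a := by
  rw [ee, if_neg (by omega), if_neg (by omega)]

theorem ee_inv (E F h : ℕ → B) (a b : ℕ) :
    ee (fun i => -F i) (fun i => -E i) (fun i => -h i) a b = -ee E F h b a := by
  rcases lt_trichotomy a b with hab | hab | hab
  · rw [ee_lt hab, ee_gt hab, neg_neg]
  · subst hab
    rw [ee_eq, ee_eq]
  · rw [ee_gt hab, ee_lt hab]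
    simp only [neg_neg]

theorem rec1 {E : ℕ → B} (R : RootRel (1 : ℂ) E) {i j : ℕ} (hij : i + 1 < j) :
    rv 1 E i j = br (E i) (rv 1 E (i + 1) j) := by
  rw [R.rec' i j hij, inv_one, one_smul]
  rfl

/-- weights of the root vectors -/
theorem wtP (hR : S_ROOT) {N : ℕ} {E F h : ℕ → B} (C : Chev N E F h) (z d : ℕ) :
    ∀ x, x + d + 1 ≤ N → br (h z) (rv 1 E x (x + d + 1)) =
      ((if z = x then (1 : ℂ) else 0) - (if z = x + d + 1 then 1 else 0)) • rv 1 E x (x + d + 1) := by
  have R := hR B 1 E one_ne_zero (by norm_num) C.sE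
  induction d with
  | zero =>
    intro x hx
    have h1 : rv 1 E x (x + 0 + 1) = E x := R.base x
    rw [h1]
    exact C.hE z x hx
  | succ d ih =>
    intro x hx
    have h1 := ih (x + 1) (by omega)
    have e1 : x + 1 + d + 1 = x + (d + 1) + 1 := by omega
    rw [e1] at h1
    rw [rec1 R (show x + 1 < x + (d + 1) + 1 by omega), br_jac, h1, C.hE z x (by omega), br_smul_left,
      br_smul_right, ← add_smul]
    congr 1
    ring

theorem wtP' (hR : S_ROOT) {N : ℕ} {E F h : ℕ → B} (C : Chev N E F h) (z : ℕ) {x y : ℕ}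
    (hxy : x < y) (hy : y ≤ N) : br (h z) (rv 1 E x y) =
      ((if z = x then (1 : ℂ) else 0) - (if z = y then 1 else 0)) • rv 1 E x y := by
  obtain ⟨d, rfl⟩ : ∃ d, y = x + d + 1 := ⟨y - x - 1, by omega⟩
  exact wtP hR C z d x hy

/-- weights of the matrix units -/
theorem wtE (hR : S_ROOT) {N : ℕ} {E F h : ℕ → B} (C : Chev N E F h) (z : ℕ) {x y : ℕ}
    (hx : x ≤ N) (hy : y ≤ N) : br (h z) (ee E F h x y) =
      ((if z = x then (1 : ℂ) else 0) - (if z = y then 1 else 0)) • ee E F h x y := by
  rcases lt_trichotomy x y with hxy | hxy | hxy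
  · rw [ee_lt hxy]
    exact wtP' hR C z hxy hy
  · subst hxy
    rw [ee_eq, C.hh, sub_self, zero_smul]
  · rw [ee_gt hxy]
    have h1 := wtP' hR C.inv z hxy hx
    rw [br_neg_left] at h1
    rw [br_neg_right, h1, smul_neg, ← neg_smul, neg_sub]

/-- the brackets with the upper triangular part -/
theorem brP (hR : S_ROOT) {N : ℕ} {E F h : ℕ → B} (C : Chev N E F h) {c x y : ℕ}
    (hxy : x < y) : br (E c) (rv 1 E x y) =
      (if c + 1 = x then rv 1 E c y else 0) - (if c = y then rv 1 E x (c + 1) else 0) := by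
  have R := hR B 1 E one_ne_zero (by norm_num) C.sE
  by_cases h1 : c + 1 = x
  · subst h1
    rw [if_pos rfl, if_neg (by omega), sub_zero]
    exact (rec1 R hxy).symm
  rw [if_neg h1, zero_sub]
  by_cases h2 : c = y
  · subst h2
    rw [if_pos rfl, R.R3 x c hxy, inv_one, one_smul, neg_sub]
    rfl
  rw [if_neg h2, neg_zero]
  by_cases h3 : c = x
  · subst h3
    rcases Nat.lt_or_ge (c + 1) y with h4 | h4
    · have h5 := R.R4 c y h4
      rw [one_smul] at h5
      exact br_of_comm h5
    · have h5 : y = c + 1 := by omega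
      rw [h5, R.base]
      exact br_self _
  by_cases h4 : c + 1 = y
  · subst h4
    have h5 := R.R5 x c (by omega)
    rw [one_smul] at h5
    exact br_of_comm h5.symm
  rcases Nat.lt_or_ge c x with h5 | h5
  · exact br_of_comm (R.R2 c x y hxy (Or.inl (by omega)))
  rcases Nat.lt_or_ge y c with h6 | h6
  · exact br_of_comm (R.R2 c x y hxy (Or.inr h6))
  · exact br_of_comm (R.R6 x c y (by omega) (by omega))

/-- recursion for the lower triangular part -/
theorem recQ (hR : S_ROOT) {N : ℕ} {E F h : ℕ → B} (C : Chev N E F h) {x y : ℕ}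
    (hxy : x + 1 < y) : ee E F h y x = br (ee E F h y (x + 1)) (F x) := by
  have R := hR B 1 (fun i => -F i) one_ne_zero (by norm_num) (serre_neg C.sF)
  rw [ee_gt (show x < y by omega), ee_gt (show x + 1 < y by omega), rec1 R hxy, br_neg_left,
    br_neg_left, neg_neg, br_skew]

theorem farQ (hR : S_ROOT) {N : ℕ} {E F h : ℕ → B} (C : Chev N E F h) {x y : ℕ}
    (hxy : x + 2 < y) : br (ee E F h y (x + 2)) (F x) = 0 := by
  have R := hR B 1 (fun i => -F i) one_ne_zero (by norm_num) (serre_neg C.sF)
  rw [ee_gt hxy, br_neg_left]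
  have h1 := br_of_comm (R.R2 x (x + 2) y hxy (Or.inl (by omega)))
  rw [br_neg_left] at h1
  rw [br_skew, neg_neg]
  exact neg_eq_zero.1 h1

theorem eeF (hR : S_ROOT) {N : ℕ} {E F h : ℕ → B} (C : Chev N E F h) (x : ℕ) :
    ee E F h (x + 1) x = F x := by
  have R := hR B 1 (fun i => -F i) one_ne_zero (by norm_num) (serre_neg C.sF)
  rw [ee_gt (Nat.lt_succ_self x), R.base, neg_neg]

theorem eeE (hR : S_ROOT) {N : ℕ} {E F h : ℕ → B} (C : Chev N E F h) (x : ℕ) :
    ee E F h x (x + 1) = E x := by
  have R := hR B 1 E one_ne_zero (by norm_num) C.sE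
  rw [ee_lt (Nat.lt_succ_self x), R.base]

/-- the brackets with the lower triangular part -/
theorem brQ (hR : S_ROOT) {N : ℕ} {E F h : ℕ → B} (C : Chev N E F h) {c : ℕ} (hc : c < N)
    (d : ℕ) : ∀ x, x + d + 1 ≤ N → br (E c) (ee E F h (x + d + 1) x) =
      (if c + 1 = x + d + 1 then ee E F h c x else 0) -
        (if c = x then ee E F h (x + d + 1) (c + 1) else 0) := by
  induction d with
  | zero =>
    intro x hx
    have h1 : ee E F h (x + 0 + 1) x = F x := eeF hR C x
    rw [h1, C.EF c x hc (by omega)]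
    by_cases hcx : c = x
    · subst hcx
      rw [if_pos rfl, if_pos rfl, if_pos rfl]
      have h2 : ee E F h (c + 0 + 1) (c + 1) = h (c + 1) := ee_eq _
      rw [ee_eq, h2]
    · rw [if_neg hcx, if_neg (by omega), if_neg hcx, sub_zero]
  | succ d ih =>
    intro x hx
    have h1 := ih (x + 1) (by omega)
    have e1 : x + 1 + d + 1 = x + (d + 1) + 1 := by omega
    rw [e1] at h1
    rw [recQ hR C (show x + 1 < x + (d + 1) + 1 by omega), br_jac, h1, C.EF c x hc (by omega)]
    by_cases h2 : c = x
    · subst h2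
      rw [if_neg (by omega), if_neg (by omega), if_pos rfl, if_neg (by omega), if_pos rfl,
        sub_zero, br_zero_left, zero_add, zero_sub, br_skew, br_sub_left,
        wtE hR C c hx (by omega), wtE hR C (c + 1) hx (by omega)]
      rw [if_neg (by omega), if_neg (by omega), if_neg (by omega), if_pos rfl, sub_self, zero_smul,
        zero_sub, zero_sub, neg_smul, one_smul, neg_neg]
    · rw [if_neg h2, if_neg h2, br_zero_right, add_zero, sub_zero]
      by_cases h3 : c = x + 1
      · subst h3
        rw [if_pos rfl]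
        by_cases h4 : d = 0
        · subst h4
          rw [if_pos (by omega), if_pos (by omega)]
          have h5 : ee E F h (x + (0 + 1) + 1) (x + 1 + 1) = h (x + 1 + 1) := ee_eq _
          rw [ee_eq, h5, br_sub_left, C.hF _ _ (by omega), C.hF _ _ (by omega), eeF hR C]
          rw [if_pos rfl, if_neg (by omega), if_neg (by omega), if_neg (by omega), sub_zero,
            one_smul, sub_self, zero_smul, sub_zero]
        · rw [if_neg (by omega), if_neg (by omega), zero_sub, br_neg_left,
            farQ hR C (show x + 2 < x + (d + 1) + 1 by omega), neg_zero]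
      · rw [if_neg h3, sub_zero]
        by_cases h4 : c + 1 = x + (d + 1) + 1
        · rw [if_pos h4, if_pos h4, ← recQ hR C (show x + 1 < c by omega)]
        · rw [if_neg h4, if_neg h4, br_zero_left]

/-- goodness of a pair -/
def Good (N : ℕ) (e : ℕ → ℕ → B) (a b : ℕ) : Prop := ∀ x y, x ≤ N → y ≤ N →
  br (e a b) (e x y) = (if b = x then e a y else 0) - (if a = y then e x b else 0)

theorem good_up (hR : S_ROOT) {N : ℕ} {E F h : ℕ → B} (C : Chev N E F h) {c : ℕ} (hc : c < N) :
    Good N (ee E F h) c (c + 1) := by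
  intro x y hx hy
  rw [eeE hR C]
  rcases lt_trichotomy x y with hxy | hxy | hxy
  · rw [ee_lt hxy, brP hR C hxy]
    congr 1
    · by_cases h1 : c + 1 = x
      · rw [if_pos h1, if_pos h1, ee_lt (by omega)]
      · rw [if_neg h1, if_neg h1]
    · by_cases h1 : c = y
      · rw [if_pos h1, if_pos h1, ee_lt (by omega)]
      · rw [if_neg h1, if_neg h1]
  · subst hxy
    rw [ee_eq, br_skew, C.hE x c hc]
    by_cases h1 : c + 1 = x
    · subst h1
      rw [if_pos rfl, if_neg (by omega), if_pos rfl, if_neg (by omega), eeE hR C, zero_sub,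
        neg_smul, one_smul, neg_neg, sub_zero]
    · by_cases h2 : c = x
      · subst h2
        rw [if_pos rfl, if_neg (by omega), if_neg (by omega), if_pos rfl, eeE hR C, sub_zero,
          one_smul, zero_sub]
      · rw [if_neg h1, if_neg h2, if_neg (by omega), if_neg (by omega), sub_self, sub_self,
          zero_smul, neg_zero]
  · obtain ⟨d, rfl⟩ : ∃ d, x = y + d + 1 := ⟨x - y - 1, by omega⟩
    exact brQ hR C hc d y hx

theorem good_down (hR : S_ROOT) {N : ℕ} {E F h : ℕ → B} (C : Chev N E F h) {c : ℕ} (hc : c < N) :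
    Good N (ee E F h) (c + 1) c := by
  intro x y hx hy
  have h1 := good_up hR C.inv hc y x hy hx
  rw [ee_inv, ee_inv, ee_inv, ee_inv, br_neg_left, br_neg_right, neg_neg] at h1
  rw [h1]
  by_cases h2 : c = x
  · rw [if_pos h2, if_pos h2]
    by_cases h3 : c + 1 = y
    · rw [if_pos h3, if_pos h3]
      abel
    · rw [if_neg h3, if_neg h3]
      abel
  · rw [if_neg h2, if_neg h2]
    by_cases h3 : c + 1 = y
    · rw [if_pos h3, if_pos h3]
      abel
    · rw [if_neg h3, if_neg h3]

theorem good_diag (hR : S_ROOT) {N : ℕ} {E F h : ℕ → B} (C : Chev N E F h) {c : ℕ} :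
    Good N (ee E F h) c c := by
  intro x y hx hy
  rw [ee_eq, wtE hR C c hx hy]
  by_cases h2 : c = x
  · subst h2
    rw [if_pos rfl, if_pos rfl]
    by_cases h3 : c = y
    · subst h3
      rw [if_pos rfl, if_pos rfl, sub_self, sub_self, zero_smul]
    · rw [if_neg h3, if_neg h3, sub_zero, sub_zero, one_smul]
  · rw [if_neg h2, if_neg h2]
    by_cases h3 : c = y
    · subst h3
      rw [if_pos rfl, if_pos rfl, zero_sub, zero_sub, neg_smul, one_smul]
    · rw [if_neg h3, if_neg h3, sub_self, sub_self, zero_smul]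

theorem good_mul {N : ℕ} {e : ℕ → ℕ → B} {a b c : ℕ} (ha : a ≤ N) (hb : b ≤ N) (hc : c ≤ N)
    (hab : Good N e a b) (hbc : Good N e b c) (hac : a ≠ c) : Good N e a c := by
  intro x y hx hy
  have h0 : e a c = br (e a b) (e b c) := by
    rw [hab b c hb hc, if_pos rfl, if_neg hac, sub_zero]
  have k1 : br (e a b) (e b y) = e a y - (if a = y then e b b else 0) := by
    rw [hab b y hb hy, if_pos rfl]
  have k2 : br (e a b) (e x c) = (if b = x then e a c else 0) := by
    rw [hab x c hx hc, if_neg hac, sub_zero]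
  have k3 : br (e b c) (e a y) = -(if b = y then e a c else 0) := by
    rw [hbc a y ha hy, if_neg hac.symm, zero_sub]
  have k4 : br (e b c) (e x b) = (if c = x then e b b else 0) - e x c := by
    rw [hbc x b hx hb, if_pos rfl]
  rw [h0, br_jac', hbc x y hx hy, hab x y hx hy, br_sub_right, br_sub_right]
  rcases Classical.propComplete (c = x) with c1 | c1 <;>
  rcases Classical.propComplete (a = y) with c2 | c2 <;>
  rcases Classical.propComplete (b = y) with c3 | c3 <;>
  rcases Classical.propComplete (b = x) with c4 | c4 <;>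
  simp only [c1, c2, c3, c4, if_true, if_false] at k1 k2 k3 k4 ⊢ <;>
  simp only [k1, k2, k3, k4, br_zero_right] <;>
  abel

theorem good_all (hR : S_ROOT) {N : ℕ} {E F h : ℕ → B} (C : Chev N E F h) {a b : ℕ}
    (ha : a ≤ N) (hb : b ≤ N) : Good N (ee E F h) a b := by
  have up : ∀ d a, a + d + 1 ≤ N → Good N (ee E F h) a (a + d + 1) := by
    intro d
    induction d with
    | zero =>
      intro a ha
      exact good_up hR C ha
    | succ d ih =>
      intro a ha
      have h1 := ih (a + 1) (by omega)
      have e1 : a + 1 + d + 1 = a + (d + 1) + 1 := by omega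
      rw [e1] at h1
      exact good_mul (by omega) (by omega) ha (good_up hR C (by omega)) h1 (by omega)
  have down : ∀ d a, a + d + 1 ≤ N → Good N (ee E F h) (a + d + 1) a := by
    intro d
    induction d with
    | zero =>
      intro a ha
      exact good_down hR C ha
    | succ d ih =>
      intro a ha
      have h1 := ih (a + 1) (by omega)
      have e1 : a + 1 + d + 1 = a + (d + 1) + 1 := by omega
      rw [e1] at h1
      exact good_mul ha (by omega) (by omega) h1 (good_down hR C (by omega)) (by omega)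
  rcases lt_trichotomy a b with hab | hab | hab
  · obtain ⟨d, rfl⟩ : ∃ d, b = a + d + 1 := ⟨b - a - 1, by omega⟩
    exact up d a hb
  · subst hab
    exact good_diag hR C
  · obtain ⟨d, rfl⟩ : ∃ d, a = b + d + 1 := ⟨a - b - 1, by omega⟩
    exact down d b ha

/-- MUA -/
theorem sMUA (hR : S_ROOT) : S_MUA := by
  intro B _ _ N E F h sE sF hout hEF hhE hhF hhh
  have C : Chev N E F h := by
    refine ⟨sE, sF, hEF, ?_, ?_, hhh⟩
    · intro x i hi
      have h1 := hhE x i hi
      push_cast at h1
      exact h1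
    · intro x i hi
      have h1 := hhF x i hi
      push_cast at h1
      exact h1
  refine ⟨ee E F h, fun a => ee_eq a, fun i hi => ⟨eeE hR C i, eeF hR C i⟩, ?_⟩
  intro a b c d ha hb hc hd
  exact good_all hR C ha hb c d hc hd

end

end Pool.Agent.Helper32.SQ
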