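import Pool.Agent.Helper41.SQ.GoalsN

/-!
Project SQ (MP_bb32d1_al), stage B, packet SDE: the side `eps`.
-/

set_option autoImplicit false
set_option linter.unusedSectionVars false

namespace Pool.Agent.Helper32.SQN

noncomputable section

open Matrix Pool.Agent.Helper19.SQ Pool.Agent.Helper34.SQ Pool.Agent.Helper41.SQ

section lin

variable {A : Type} [Ring A] [Algebra ℂ A] {κ : Type} [Fintype κ] [DecidableEq κ]

/-- `Z ↦ Z^v` as a linear map -/
def vvL (Hs : A →ₐ[ℂ] Matrix κ κ A) : Matrix κ κ A →ₗ[ℂ] Matrix κ κ A where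
  toFun Z := vv Hs Z
  map_add' Z Z' := by
    ext K I
    simp only [vv_apply, Matrix.add_apply, map_add, Finset.sum_add_distrib]
  map_smul' c Z := by
    ext K I
    simp only [vv_apply, Matrix.smul_apply, map_smul, Finset.smul_sum, RingHom.id_apply]

theorem vvL_apply (Hs : A →ₐ[ℂ] Matrix κ κ A) (Z : Matrix κ κ A) : vvL Hs Z = vv Hs Z := rfl

theorem comm_pow {X M : Matrix κ κ A} (h : X * M = M * X) (k : ℕ) : X ^ k * M = M * X ^ k := by
  induction k with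
  | zero => simp
  | succ k ih => rw [pow_succ, mul_assoc, h, ← mul_assoc, ih, mul_assoc]

theorem vv_pow (hD : S_DPV) {H Hs : A →ₐ[ℂ] Matrix κ κ A} (hP : IsDP H Hs) {X : Matrix κ κ A}
    (hX : ∀ a, X * H a = H a * X) (k : ℕ) : vv Hs X ^ k = vv Hs (X ^ k) := by
  obtain ⟨_, h2, h3, _⟩ := hD A κ H Hs hP
  induction k with
  | zero => rw [pow_zero, pow_zero, h3]
  | succ k ih => rw [pow_succ, ih, pow_succ', h2 X hX]

theorem vv_pev (hD : S_DPV) {H Hs : A →ₐ[ℂ] Matrix κ κ A} (hP : IsDP H Hs) {X : Matrix κ κ A}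
    (hX : ∀ a, X * H a = H a * X) (g : Polynomial ℂ) : pev g (vv Hs X) = vv Hs (pev g X) := by
  rw [← vvL_apply Hs (pev g X), pev, pev, Polynomial.aeval_eq_sum_range,
    Polynomial.aeval_eq_sum_range, map_sum]
  refine Finset.sum_congr rfl fun i _ => ?_
  rw [map_smul, vvL_apply, vv_pow hD hP hX]

theorem sc_sub' (M M' : Matrix κ κ ℂ) : sc A (M - M') = sc A M - sc A M' := by
  ext x y
  simp [sc]

theorem sc_smul' (c : ℂ) (M : Matrix κ κ ℂ) : sc A (c • M) = c • sc A M := by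
  ext x y
  simp only [sc, Matrix.map_apply, Matrix.smul_apply, smul_eq_mul, map_mul]
  rw [Algebra.smul_def]

end lin

section flip

variable {A : Type} [Ring A] [Algebra ℂ A] {ι : Type} [Fintype ι] [DecidableEq ι]

/-- the flip of the two factors -/
def FF : Matrix (ι × ι) (ι × ι) A ≃ₐ[ℂ] Matrix (ι × ι) (ι × ι) A :=
  Matrix.reindexAlgEquiv ℂ A (Equiv.prodComm ι ι)

theorem FF_apply (M : Matrix (ι × ι) (ι × ι) A) (x y : ι × ι) :
    FF M x y = M (x.2, x.1) (y.2, y.1) := rfl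

theorem FF_sc (N : Matrix (ι × ι) (ι × ι) ℂ) : FF (sc A (flT N)) = sc A Nᵀ := by
  ext x y
  rw [FF_apply]
  rfl

theorem FF_X1 (hP : S_DP2) (C : Core0 A ι) (M : Matrix ι ι A) :
    vv (Hs2 C) (Phi C.δ M) = FF (X1 (vv C.ε M)) := by
  ext x y
  rw [(hP A ι C).2.2.1, FF_apply]
  rfl

theorem FF_Phi (hP : S_DP2) (C : Core0 A ι) (M : Matrix ι ι A) :
    vv (Hs2 C) (X1 M) = FF (Phi C.ε (vv C.ε M)) := by
  ext x y
  rw [(hP A ι C).2.2.2, FF_apply]
  rfl

theorem X1_comm (C : Core0 A ι) (a : A) :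
    X1 C.X * Phi C.δ (C.δ a) = Phi C.δ (C.δ a) * X1 C.X := by
  ext x y
  rw [Matrix.mul_apply, Matrix.mul_apply, Fintype.sum_prod_type, Fintype.sum_prod_type]
  have h1 : ∀ i, ∑ j, X1 C.X x (i, j) * Phi C.δ (C.δ a) (i, j) y =
      if x.1 = i then (C.X * C.δ (C.δ a x.1 y.1)) x.2 y.2 else 0 := by
    intro i
    by_cases h : x.1 = i
    · subst h
      rw [if_pos rfl, Matrix.mul_apply]
      refine Finset.sum_congr rfl fun j _ => ?_
      simp [X1]
    · rw [if_neg h]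
      refine Finset.sum_eq_zero fun j _ => ?_
      simp [X1, h]
  have h2 : ∀ i, ∑ j, Phi C.δ (C.δ a) x (i, j) * X1 C.X (i, j) y =
      if i = y.1 then (C.δ (C.δ a x.1 y.1) * C.X) x.2 y.2 else 0 := by
    intro i
    by_cases h : i = y.1
    · subst h
      rw [if_pos rfl, Matrix.mul_apply]
      refine Finset.sum_congr rfl fun j _ => ?_
      simp [X1]
    · rw [if_neg h]
      refine Finset.sum_eq_zero fun j _ => ?_
      simp [X1, h]
  rw [Finset.sum_congr rfl fun i _ => h1 i, Finset.sum_congr rfl fun i _ => h2 i,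
    Finset.sum_ite_eq, Finset.sum_ite_eq', if_pos (Finset.mem_univ _), if_pos (Finset.mem_univ _),
    C.Xδ]

end flip

theorem n_sde (hD : S_DPV) (hP : S_DP2) (hR : S_REL) : S_SDE := by
  intro A _ _ ι _ _ C P
  obtain ⟨hp1, hp2, _, _⟩ := hP A ι C
  obtain ⟨r1, r2, r3, r4, r5⟩ := hR ι P.Sc C.T P.ω P.ScSc P.TSc
  obtain ⟨d1, d2, d3, d4⟩ := hD A ι C.δ C.ε hp1
  obtain ⟨q1, q2, q3, q4⟩ := hD A (ι × ι) ((Phi C.δ).comp C.δ) (Hs2 C) hp2
  have hSc : ∀ a, sc A P.Sc * ((Phi C.δ).comp C.δ) a = ((Phi C.δ).comp C.δ) a * sc A P.Sc :=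
    P.ScD
  have hX1 : ∀ a, X1 C.X * ((Phi C.δ).comp C.δ) a = ((Phi C.δ).comp C.δ) a * X1 C.X :=
    X1_comm C
  have hSw : ∀ a, sc A (P.Sc - P.ω • (1 : Matrix (ι × ι) (ι × ι) ℂ)) *
      ((Phi C.δ).comp C.δ) a = ((Phi C.δ).comp C.δ) a *
      sc A (P.Sc - P.ω • (1 : Matrix (ι × ι) (ι × ι) ℂ)) := by
    intro a
    rw [sc_sub', sc_smul', sc_one, sub_mul, mul_sub, hSc, smul_mul_assoc, one_mul,
      mul_smul_comm, mul_one]
  refine ⟨
    { D := C.ε
      X := vv C.ε C.X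
      R := RE C.T
      w := -P.ω
      z := fun k a p => (C.X ^ k) p a
      w_ne := neg_ne_zero.2 P.ω_ne
      XD := d1 C.X C.Xδ
      RD := ?_
      XX := ?_
      RR := r2
      br := r5 P.br
      inv := ?_
      zX := ?_ }, rfl, rfl, rfl, rfl⟩
  · intro a
    apply (FF (A := A) (ι := ι)).injective
    rw [map_mul, map_mul, r1, FF_sc]
    have h := q1 _ hSw a
    rw [q4] at h
    exact h
  · have h1 : vv (Hs2 C) (Phi C.δ C.X) =
        sc A P.Scᵀ * vv (Hs2 C) (X1 C.X) * sc A P.Scᵀ := by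
      rw [P.ScX, mul_assoc, q2 _ hSc, q2 _ hX1, q4]
    rw [FF_X1 hP, FF_Phi hP, ← FF_sc, ← map_mul, ← map_mul] at h1
    have h2 := (FF (A := A) (ι := ι)).injective h1
    rw [h2]
    have e1 : sc A (RE C.T) * sc A (flT P.Sc) = 1 := by rw [sc_mul, r3, sc_one]
    have e2 : sc A (flT P.Sc) * sc A (RE C.T) = 1 := by rw [sc_mul, r4, sc_one]
    calc Phi C.ε (vv C.ε C.X)
        = 1 * Phi C.ε (vv C.ε C.X) * 1 := by rw [one_mul, mul_one]
      _ = (sc A (RE C.T) * sc A (flT P.Sc)) * Phi C.ε (vv C.ε C.X) *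
          (sc A (flT P.Sc) * sc A (RE C.T)) := by rw [e1, e2]
      _ = _ := by simp only [mul_assoc]
  · obtain ⟨g, hg0, hg⟩ := P.inv
    exact ⟨g, hg0, by rw [vv_pev hD hp1 C.Xδ, hg, d3]⟩
  · intro k p r
    rw [vv_pow hD hp1 C.Xδ]
    rfl

end

end Pool.Agent.Helper32.SQN
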