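import Pool.Agent.Helper41.SQ.GoalsN

/-!
Project SQ (MP_bb32d1_al), stage B, packet SGF: closed formula for the functionals.
-/

set_option autoImplicit false
set_option linter.unusedSectionVars false

namespace Pool.Agent.Helper32.SQN

noncomputable section

open Matrix Pool.Agent.Helper19.SQ Pool.Agent.Helper34.SQ Pool.Agent.Helper41.SQ

section

variable {A : Type} [Ring A] [Algebra ℂ A] {ι κ : Type} [Fintype ι] [DecidableEq ι]
  [Fintype κ] [DecidableEq κ]

theorem lb_apply (R : Matrix (ι × ι) (ι × ι) ℂ) (Ξ : Matrix (ι × κ) (ι × κ) A) (a x k : ι)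
    (K : κ) (P : ι × κ) :
    (lfR A κ R * bdG ι Ξ) (a, (x, K)) (k, P) = ∑ y, R (a, x) (k, y) • Ξ (y, K) P := by
  rw [Matrix.mul_apply, Fintype.sum_prod_type, Finset.sum_eq_single k]
  · rw [Fintype.sum_prod_type]
    refine Finset.sum_congr rfl fun y _ => ?_
    rw [Finset.sum_eq_single K]
    · simp [lfR, Algebra.smul_def]
    · intro K' _ hne
      simp [lfR, Ne.symm hne]
    · intro h; exact absurd (Finset.mem_univ _) h
  · intro k' _ hne
    refine Finset.sum_eq_zero fun z _ => ?_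
    simp [hne]
  · intro h; exact absurd (Finset.mem_univ _) h

theorem entry (S : Sd A ι) (H : A →ₐ[ℂ] Matrix κ κ A) (Ξ : Matrix (ι × κ) (ι × κ) A) (b : A)
    (a x p : ι) (K : κ) :
    (lfR A κ S.R * bdG ι Ξ * nH S (nH S H) b) (a, (x, K)) (p, (x, K)) =
      ∑ k, ∑ y, S.R (a, x) (k, y) • (Ξ * nH S H (S.D b k p)) (y, K) (x, K) := by
  rw [Matrix.mul_apply, Fintype.sum_prod_type]
  refine Finset.sum_congr rfl fun k _ => ?_
  have h1 : ∀ P : ι × κ, (lfR A κ S.R * bdG ι Ξ) (a, (x, K)) (k, P) *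
      nH S (nH S H) b (k, P) (p, (x, K)) =
      ∑ y, S.R (a, x) (k, y) • (Ξ (y, K) P * nH S H (S.D b k p) P (x, K)) := by
    intro P
    rw [lb_apply, Finset.sum_mul]
    refine Finset.sum_congr rfl fun y _ => ?_
    rw [smul_mul_assoc]
    rfl
  rw [Finset.sum_congr rfl fun P _ => h1 P, Finset.sum_comm]
  refine Finset.sum_congr rfl fun y _ => ?_
  rw [Matrix.mul_apply, Finset.smul_sum]

theorem run_next (r : Matrix (ι × κ) (ι × κ) A) (R : ℕ → Matrix κ κ A) (j : ℕ) :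
    run (nR r R) 0 (j + 1) = r * bdG ι (run R 0 j) := by
  have h := run_map (bdG ι (A := A) (κ := κ)).toMonoidHom R 0 j
  have h' : bdG ι (run R 0 j) = run (fun i => bdG ι (R i)) 0 j := h
  rw [run_succ_left, h']
  congr 1
  have h2 := run_shift (nR r R) 0 1 j
  rw [← h2]
  refine run_congr fun i _ _ => ?_
  rw [Nat.add_comm 1 i]
  rfl

theorem step (S : Sd A ι) (τ : A →ₗ[ℂ] ℂ) (L : LevD A ι) (j : ℕ)
    (h : ∀ d a b, sge S τ (fun _ => 1) j d a b =
      ∑ K, τ ((run (nR L.r L.R) 0 j * nH S L.H b) (a, K) (d, K))) (p a : ι) (b : A) :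
    sge S τ (fun _ => 1) (j + 1) p a b =
      ∑ K, τ ((run (nR (L.step S).r (L.step S).R) 0 (j + 1) * nH S (L.step S).H b)
        (a, K) (p, K)) := by
  have h1 : run (nR (L.step S).r (L.step S).R) 0 (j + 1) =
      lfR A L.κ S.R * bdG ι (run (nR L.r L.R) 0 j) := run_next _ _ j
  have h2 : ∀ K : ι × L.κ, τ ((run (nR (L.step S).r (L.step S).R) 0 (j + 1) *
      nH S (L.step S).H b) (a, K) (p, K)) = ∑ k, ∑ y, S.R (a, K.1) (k, y) *
        τ ((run (nR L.r L.R) 0 j * nH S L.H (S.D b k p)) (y, K.2) (K.1, K.2)) := by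
    rintro ⟨x, K⟩
    rw [h1]
    have h3 := entry S L.H (run (nR L.r L.R) 0 j) b a x p K
    refine (congrArg τ h3).trans ?_
    rw [map_sum]
    refine Finset.sum_congr rfl fun k _ => ?_
    rw [map_sum]
    refine Finset.sum_congr rfl fun y _ => ?_
    rw [map_smul, smul_eq_mul]
  have h5 : ∑ K, τ ((run (nR (L.step S).r (L.step S).R) 0 (j + 1) * nH S (L.step S).H b)
        (a, K) (p, K)) = ∑ K : ι × L.κ, ∑ k, ∑ y, S.R (a, K.1) (k, y) *
        τ ((run (nR L.r L.R) 0 j * nH S L.H (S.D b k p)) (y, K.2) (K.1, K.2)) :=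
    Finset.sum_congr rfl fun K _ => h2 K
  rw [h5, Fintype.sum_prod_type]
  change ∑ k, ∑ x, ∑ y, S.R (a, x) (k, y) * sge S τ (fun _ => 1) j x y (S.D (b * 1) k p) = _
  rw [mul_one, Finset.sum_comm]
  refine Finset.sum_congr rfl fun x _ => ?_
  have h6 : ∑ y : L.κ, ∑ k, ∑ y', S.R (a, (x, y).1) (k, y') *
      τ ((run (nR L.r L.R) 0 j * nH S L.H (S.D b k p)) (y', (x, y).2) ((x, y).1, (x, y).2)) =
      ∑ k, ∑ y', ∑ y : L.κ, S.R (a, x) (k, y') *
      τ ((run (nR L.r L.R) 0 j * nH S L.H (S.D b k p)) (y', y) (x, y)) := by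
    rw [Finset.sum_comm]
    refine Finset.sum_congr rfl fun k _ => ?_
    rw [Finset.sum_comm]
  rw [h6]
  refine Finset.sum_congr rfl fun k _ => ?_
  refine Finset.sum_congr rfl fun y _ => ?_
  rw [h, Finset.mul_sum]

end

theorem n_sgf : S_SGF := by
  intro A _ _ ι _ _ S τ j
  induction j with
  | zero =>
    intro d a b
    have h1 : run (nR (tow S 0).r (tow S 0).R) 0 0 * nH S (tow S 0).H b =
        nH S (tow S 0).H b := by rw [run_zero, one_mul]
    rw [h1]
    change τ (S.D (b * 1) a d) = ∑ _K : Unit, τ (S.D b a d)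
    rw [Fintype.sum_unique, mul_one]
  | succ j ih =>
    intro p a b
    exact step S τ (tow S j) j ih p a b

end

end Pool.Agent.Helper32.SQN
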