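import Mathlib
import Pool.Agent.Helper84.SQ.GoalsC

/-! Packet PTD of the project SQ. -/

namespace Pool.Agent.Helper32.SQ

open Pool.Agent.Helper81.CC Pool.Agent.Bin
open Pool.Agent.Helper84.SQ
open Pool.Agent.Helper92.FR (Qn Cst dot cut cini cen)
open Pool.Agent.Helper45.SQP (Inst TUInst Correct Code Output)

variable {α : Type} [ToData α]

@[fun_prop] theorem PT_zof {f : α → Bool × List Bool} (hf : PolyTime f) :
    PolyTime (fun a => zof (f a)) := by unfold zof; fun_prop

@[fun_prop] theorem PT_rowsC {f : α → Code} (hf : PolyTime f) :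
    PolyTime (fun a => rowsC (f a)) := by unfold rowsC; fun_prop

@[fun_prop] theorem PT_gobC {f : α → Code} (hf : PolyTime f) :
    PolyTime (fun a => gobC (f a)) := by unfold gobC; fun_prop

@[fun_prop] theorem PT_fobC {f : α → Code} (hf : PolyTime f) :
    PolyTime (fun a => fobC (f a)) := by unfold fobC; fun_prop

@[fun_prop] theorem PT_vinC {f : α → Code} (hf : PolyTime f) :
    PolyTime (fun a => vinC (f a)) := by unfold vinC; fun_prop

@[fun_prop] theorem PT_szC {f : α → Code} (hf : PolyTime f) :
    PolyTime (fun a => szC (f a)) := by unfold szC; fun_prop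

@[fun_prop] theorem PT_unitR {d i : α → ℕ} {s : α → Zn} (hd : PolyTime d) (hi : PolyTime i)
    (hs : PolyTime s) : PolyTime (fun a => unitR (d a) (i a) (s a)) := by unfold unitR; fun_prop

@[fun_prop] theorem PT_boxR {d : α → ℕ} {b : α → List Zn × List Zn} (hd : PolyTime d)
    (hb : PolyTime b) : PolyTime (fun a => boxR (d a) (b a)) := by unfold boxR; fun_prop

@[fun_prop] theorem PT_trcC {f : α → Code} (hf : PolyTime f) :
    PolyTime (fun a => trcC (f a)) := by unfold trcC; fun_prop

@[fun_prop] theorem PT_icode {f : α → Zn} (hf : PolyTime f) :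
    PolyTime (fun a => icode (f a)) := by unfold icode; fun_prop

@[fun_prop] theorem PT_outC {f : α → Option (List Zn)} (hf : PolyTime f) :
    PolyTime (fun a => outC (f a)) := by unfold outC; fun_prop

theorem ptd (h : PtcStmt) : PtdStmt := by
  intro p K
  apply PT_outC
  unfold alg
  exact (h p K Code (fun c => szC c + 2) (fun c => c.2.length) (fun _ => 0) vinC trcC fobC gobC
    (by fun_prop) (by fun_prop) (by fun_prop) (by fun_prop) (by fun_prop) (by fun_prop)
    (by fun_prop)).2.2

end Pool.Agent.Helper32.SQ
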